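import Pool.Agent.Helper63.TH.Goals

/-!
# MP_705522_gt, thresholds: packet N3
-/

set_option autoImplicit false

namespace Pool.Agent.Helper35.TH

open MeasureTheory Set Filter Topology
open Pool.Agent.Helper53.PT
open Pool.Agent.Helper63.TH

theorem cube_le_pos {a b w : ℝ} (ha : 0 ≤ a) (hb : 0 ≤ b) (hw : |a - b| ≤ w) : a ^ 3 - b ^ 3 ≤ 3 * a ^ 2 * w := by
  have hw0 : 0 ≤ w := (abs_nonneg _).trans hw
  rcases le_total b a with h | h
  · have h1 : a - b ≤ w := (le_abs_self _).trans hw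
    have h2 : a ^ 3 - b ^ 3 = (a - b) * (a ^ 2 + a * b + b ^ 2) := by ring
    have h3 : a ^ 2 + a * b + b ^ 2 ≤ 3 * a ^ 2 := by nlinarith
    calc a ^ 3 - b ^ 3 = (a - b) * (a ^ 2 + a * b + b ^ 2) := h2
      _ ≤ (a - b) * (3 * a ^ 2) := mul_le_mul_of_nonneg_left h3 (by linarith)
      _ ≤ w * (3 * a ^ 2) := mul_le_mul_of_nonneg_right h1 (by positivity)
      _ = 3 * a ^ 2 * w := by ring
  · have h1 : a ^ 3 ≤ b ^ 3 := pow_le_pow_left₀ ha h 3
    have h2 : 0 ≤ 3 * a ^ 2 * w := by positivity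
    linarith

theorem cube_le_neg {a b w v : ℝ} (ha : 0 ≤ a) (hw : |a - b| ≤ w) (hv : |a - b| ≤ v) :
    a ^ 3 - b ^ 3 ≤ 3 * a ^ 2 * w + v ^ 3 := by
  have hv0 : 0 ≤ v := (abs_nonneg _).trans hv
  rcases le_total 0 b with hb | hb
  · have h1 := cube_le_pos ha hb hw
    have h2 : 0 ≤ v ^ 3 := by positivity
    linarith
  · have h1 : a - b ≤ w := (le_abs_self _).trans hw
    have h2 : a - b ≤ v := (le_abs_self _).trans hv
    have h3 : a ≤ w := by linarith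
    have h4 : (-b) ^ 3 ≤ v ^ 3 := pow_le_pow_left₀ (by linarith) (by linarith) 3
    have h5 : a ^ 3 ≤ 3 * a ^ 2 * w := by
      have h6 : a ^ 2 * a ≤ a ^ 2 * w := mul_le_mul_of_nonneg_left h3 (by positivity)
      have h7 : 0 ≤ a ^ 2 * a := by positivity
      nlinarith
    nlinarith

theorem exp_num1 : Real.exp (-0.36) ≤ 0.7 := by
  have h1 := Real.exp_one_gt_d9
  have h2 : (1 / 0.7 : ℝ) ≤ Real.exp 0.36 := by
    have h3 := Real.quadratic_le_exp_of_nonneg (show (0 : ℝ) ≤ 0.36 by norm_num)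
    have h4 : (1 / 0.7 : ℝ) ≤ 1.4292 := by norm_num
    have h5 : (1.4292 : ℝ) ≤ Real.exp 0.36 := by
      have h6 := Real.sum_le_exp_of_nonneg (show (0 : ℝ) ≤ 0.36 by norm_num) 5
      simp only [Finset.sum_range_succ, Finset.sum_range_zero, Nat.factorial] at h6
      norm_num at h6 ⊢
      linarith
    exact h4.trans h5
  rw [Real.exp_neg]
  rw [one_div] at h2
  have h3 : (0 : ℝ) < Real.exp 0.36 := Real.exp_pos _
  rw [inv_le_comm₀ h3 (by norm_num)]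
  exact h2

theorem exp_num2 : (0.0704 : ℝ) ≤ Real.exp (-2.645) := by
  have h1 : Real.exp 2.645 ≤ 14.2 := by
    have h2 : Real.exp 2.645 = Real.exp 1 ^ 2 * (Real.exp 1 * Real.exp (-0.355)) := by
      rw [← Real.exp_nat_mul, ← Real.exp_add, ← Real.exp_add]
      norm_num
    have h3 := Real.exp_one_lt_d9
    have h4 : Real.exp (-0.355) ≤ 0.7013 := by
      have h5 : (1 / 0.7013 : ℝ) ≤ Real.exp 0.355 := by
        have h6 := Real.sum_le_exp_of_nonneg (show (0 : ℝ) ≤ 0.355 by norm_num) 6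
        simp only [Finset.sum_range_succ, Finset.sum_range_zero, Nat.factorial] at h6
        norm_num at h6 ⊢
        linarith
      rw [Real.exp_neg]
      rw [one_div] at h5
      rw [inv_le_comm₀ (Real.exp_pos _) (by norm_num)]
      exact h5
    have h6 : (0 : ℝ) < Real.exp 1 := Real.exp_pos _
    rw [h2]
    have h7 : Real.exp 1 ^ 2 * (Real.exp 1 * Real.exp (-0.355)) ≤
        2.7182818286 ^ 2 * (2.7182818286 * 0.7013) := by
      apply mul_le_mul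
      · exact pow_le_pow_left₀ h6.le h3.le 2
      · exact mul_le_mul h3.le h4 (Real.exp_pos _).le (by norm_num)
      · positivity
      · positivity
    refine h7.trans (by norm_num)
  rw [Real.exp_neg, le_inv_comm₀ (by norm_num) (Real.exp_pos _)]
  refine h1.trans (by norm_num)

theorem xsx {x : ℝ} (hx : 0 < x) : x * √x = x ^ (3 / 2 : ℝ) := by
  rw [Real.sqrt_eq_rpow, ← Real.rpow_one_add' hx.le (by norm_num)]
  norm_num

theorem int_sqrt : ∫ x in Ioc (0 : ℝ) 0.36, √x = 0.144 := by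
  rw [← intervalIntegral.integral_of_le (by norm_num)]
  have h1 : ∀ x : ℝ, √x = x ^ (1 / 2 : ℝ) := fun x => Real.sqrt_eq_rpow x
  simp only [h1]
  rw [integral_rpow (Or.inl (by norm_num))]
  have h2 : (0.36 : ℝ) ^ ((1 / 2 : ℝ) + 1) = 0.216 := by
    have h3 : (0.36 : ℝ) = 0.6 ^ (2 : ℝ) := by norm_num
    rw [h3, ← Real.rpow_mul (by norm_num)]
    norm_num
  rw [h2, Real.zero_rpow (by norm_num)]
  norm_num

theorem intOn_sqrt : IntegrableOn (fun x : ℝ => √x) (Ioc (0 : ℝ) 0.36) :=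
  (Real.continuous_sqrt.integrableOn_Icc (a := 0) (b := 0.36)).mono_set Ioc_subset_Icc_self

theorem int_exp : ∫ x in Ioi (0.36 : ℝ), Real.exp (-x) = Real.exp (-0.36) := integral_exp_neg_Ioi _

theorem intOn_exp : IntegrableOn (fun x : ℝ => Real.exp (-x)) (Ioi (0.36 : ℝ)) := by
  have h := integrableOn_exp_mul_Ioi (show (-1 : ℝ) < 0 by norm_num) 0.36
  refine h.congr_fun (fun x _ => ?_) measurableSet_Ioi
  simp

theorem intOn_pow : IntegrableOn (fun x : ℝ => 1 / (x * √x)) (Ioi (5.29 : ℝ)) := by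
  have h := integrableOn_Ioi_rpow_of_lt (show (-(3 / 2) : ℝ) < -1 by norm_num) (show (0 : ℝ) < 5.29 by norm_num)
  refine h.congr_fun (fun x hx => ?_) measurableSet_Ioi
  have hx0 : 0 < x := lt_trans (by norm_num) (mem_Ioi.1 hx)
  show x ^ (-(3 / 2) : ℝ) = 1 / (x * √x)
  rw [xsx hx0, Real.rpow_neg hx0.le, one_div]

theorem int_pow : ∫ x in Ioi (5.29 : ℝ), 1 / (x * √x) = 2 / 2.3 := by
  have h1 : ∫ x in Ioi (5.29 : ℝ), 1 / (x * √x) = ∫ x in Ioi (5.29 : ℝ), x ^ (-(3 / 2) : ℝ) := by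
    apply setIntegral_congr_fun measurableSet_Ioi
    intro x hx
    have hx0 : 0 < x := lt_trans (by norm_num) (mem_Ioi.1 hx)
    show 1 / (x * √x) = x ^ (-(3 / 2) : ℝ)
    rw [xsx hx0, Real.rpow_neg hx0.le, one_div]
  rw [h1, integral_Ioi_rpow_of_lt (by norm_num) (by norm_num)]
  have h2 : (5.29 : ℝ) ^ ((-(3 / 2) : ℝ) + 1) = 1 / 2.3 := by
    have h3 : (5.29 : ℝ) = 2.3 ^ (2 : ℝ) := by norm_num
    rw [h3, ← Real.rpow_mul (by norm_num)]
    have h4 : (2 : ℝ) * (-(3 / 2) + 1) = -1 := by norm_num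
    rw [h4, Real.rpow_neg_one, one_div]
  rw [h2]
  norm_num

theorem aux3 (r : ℝ) (h1 : 1.731 ≤ r) : 1 / (2 * r) ≤ 0.289 := by
  rw [div_le_iff₀ (by linarith)]
  linarith

theorem gN3 : GN3 := by
  intro hDIF hNG θ hθ1 hθ2 hmo hm3 hP
  have hθ0 : 1 / 4 ≤ θ := by linarith
  obtain ⟨hint, heq⟩ := (hDIF θ hθ0 hθ2 3 (by norm_num)).2
  obtain ⟨δ, hδ⟩ : ∃ δ : ℝ, δ = 1 / 2 - θ := ⟨_, rfl⟩
  rw [← hδ] at hmo hm3 hP
  have hδ0 : 0 < δ := by rw [hδ]; linarith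
  have hδ1 : δ ≤ 36 / 8192 := by rw [hδ]; linarith
  -- pointwise facts
  have hw1 : ∀ x, 0 < x → |Real.exp (-(x / 2)) - f0 θ x| ≤ x ^ 2 / 24 * (12.1 * δ) := fun x hx =>
    (hNG θ hθ0 hθ2 x hx).1.trans (mul_le_mul_of_nonneg_left hmo (by positivity))
  have hw2 : ∀ x, 0 < x → |Real.exp (-(x / 2)) - f0 θ x| ≤ 0.146 * (x * √x) * (2.87 * δ) := fun x hx =>
    (hNG θ hθ0 hθ2 x hx).2.1.trans (mul_le_mul_of_nonneg_left hm3 (by positivity))
  have hw3 : ∀ x, 0 < x → |Real.exp (-(x / 2)) - f0 θ x| ≤ 16 * δ := fun x hx => by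
    rw [hδ]
    exact (hNG θ hθ0 hθ2 x hx).2.2
  have hb0 : ∀ x, 0 < x → x ≤ 5.29 → 0 ≤ f0 θ x := by
    intro x hx hx2
    have h1 := (le_abs_self _).trans (hw3 x hx)
    have h2 : Real.exp (-2.645) ≤ Real.exp (-(x / 2)) := Real.exp_le_exp.2 (by linarith)
    have h3 := exp_num2
    linarith
  have ha2 : ∀ x : ℝ, Real.exp (-(x / 2)) ^ 2 = Real.exp (-x) := by
    intro x
    rw [← Real.exp_nat_mul]
    congr 1
    push_cast
    ring
  have hsx : ∀ x : ℝ, 0 < x → 0 < x * √x := fun x hx => mul_pos hx (Real.sqrt_pos.2 hx)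
  -- the three bounds of the integrand
  have hg1 : ∀ x ∈ Ioc (0 : ℝ) 0.36, (Real.exp (-(x / 2)) ^ 3 - f0 θ x ^ 3) / (x * √x) ≤ 3 * (12.1 / 24) * δ * √x := by
    intro x hx
    have hx0 : 0 < x := hx.1
    have hx2 : x ≤ 5.29 := hx.2.trans (by norm_num)
    have h1 := cube_le_pos (Real.exp_pos (-(x / 2))).le (hb0 x hx0 hx2) (hw1 x hx0)
    rw [ha2] at h1
    have h2 : Real.exp (-x) ≤ 1 := Real.exp_le_one_iff.2 (by linarith)
    rw [div_le_iff₀ (hsx x hx0)]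
    refine h1.trans ?_
    have h3 : 3 * (12.1 / 24) * δ * √x * (x * √x) = 3 * 1 * (x ^ 2 / 24 * (12.1 * δ)) := by
      have h4 : √x * √x = x := Real.mul_self_sqrt hx0.le
      calc 3 * (12.1 / 24) * δ * √x * (x * √x) = 3 * (12.1 / 24) * δ * x * (√x * √x) := by ring
        _ = 3 * 1 * (x ^ 2 / 24 * (12.1 * δ)) := by rw [h4]; ring
    rw [h3]
    apply mul_le_mul_of_nonneg_right _ (by positivity)
    linarith
  have hg2 : ∀ x : ℝ, 0.36 < x → x ≤ 5.29 → (Real.exp (-(x / 2)) ^ 3 - f0 θ x ^ 3) / (x * √x) ≤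
      3 * (0.146 * 2.87) * δ * Real.exp (-x) := by
    intro x hx hx2
    have hx0 : 0 < x := by linarith
    have h1 := cube_le_pos (Real.exp_pos (-(x / 2))).le (hb0 x hx0 hx2) (hw2 x hx0)
    rw [ha2] at h1
    rw [div_le_iff₀ (hsx x hx0)]
    refine h1.trans (le_of_eq ?_)
    ring
  have hg3 : ∀ x : ℝ, 5.29 < x → (Real.exp (-(x / 2)) ^ 3 - f0 θ x ^ 3) / (x * √x) ≤
      3 * (0.146 * 2.87) * δ * Real.exp (-x) + (16 * δ) ^ 3 * (1 / (x * √x)) := by
    intro x hx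
    have hx0 : 0 < x := by linarith
    have h1 := cube_le_neg (Real.exp_pos (-(x / 2))).le (hw2 x hx0) (hw3 x hx0)
    rw [ha2] at h1
    rw [div_le_iff₀ (hsx x hx0)]
    refine h1.trans (le_of_eq ?_)
    have h2 := (hsx x hx0).ne'
    rw [add_mul, mul_assoc ((16 * δ) ^ 3), one_div, inv_mul_cancel₀ h2]
    ring
  -- the integral
  have hsplit : ∫ x in Ioi (0 : ℝ), (Real.exp (-(x / 2)) ^ 3 - f0 θ x ^ 3) / (x * √x) =
      (∫ x in Ioc (0 : ℝ) 0.36, (Real.exp (-(x / 2)) ^ 3 - f0 θ x ^ 3) / (x * √x)) +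
      ∫ x in Ioi (0.36 : ℝ), (Real.exp (-(x / 2)) ^ 3 - f0 θ x ^ 3) / (x * √x) := by
    have hu : Ioi (0 : ℝ) = Ioc 0 0.36 ∪ Ioi 0.36 := (Ioc_union_Ioi_eq_Ioi (by norm_num)).symm
    rw [hu, setIntegral_union _ measurableSet_Ioi]
    · exact hint.mono_set (fun x hx => hx.1)
    · exact hint.mono_set (Ioi_subset_Ioi (by norm_num : (0 : ℝ) ≤ 0.36))
    · exact Set.disjoint_left.2 fun x hx hx' => absurd hx.2 (not_le.2 hx')
  have hA : ∫ x in Ioc (0 : ℝ) 0.36, (Real.exp (-(x / 2)) ^ 3 - f0 θ x ^ 3) / (x * √x) ≤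
      3 * (12.1 / 24) * δ * 0.144 := by
    rw [← int_sqrt, ← integral_const_mul]
    apply setIntegral_mono_on (hint.mono_set (fun x hx => hx.1)) (intOn_sqrt.const_mul _) measurableSet_Ioc
    exact hg1
  have hind : IntegrableOn ((Ioi (5.29 : ℝ)).indicator fun x => (16 * δ) ^ 3 * (1 / (x * √x))) (Ioi (0.36 : ℝ)) := by
    rw [← integrable_indicator_iff measurableSet_Ioi, Set.indicator_indicator]
    have h1 : Ioi (0.36 : ℝ) ∩ Ioi 5.29 = Ioi 5.29 := by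
      rw [Set.inter_eq_right]
      exact Ioi_subset_Ioi (by norm_num)
    rw [h1, integrable_indicator_iff measurableSet_Ioi]
    exact intOn_pow.const_mul _
  have hB : ∫ x in Ioi (0.36 : ℝ), (Real.exp (-(x / 2)) ^ 3 - f0 θ x ^ 3) / (x * √x) ≤
      3 * (0.146 * 2.87) * δ * 0.7 + (16 * δ) ^ 3 * (2 / 2.3) := by
    have h1 : ∫ x in Ioi (0.36 : ℝ), (Real.exp (-(x / 2)) ^ 3 - f0 θ x ^ 3) / (x * √x) ≤
        ∫ x in Ioi (0.36 : ℝ), (3 * (0.146 * 2.87) * δ * Real.exp (-x) +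
          (Ioi (5.29 : ℝ)).indicator (fun x => (16 * δ) ^ 3 * (1 / (x * √x))) x) := by
      apply setIntegral_mono_on (hint.mono_set (Ioi_subset_Ioi (by norm_num : (0 : ℝ) ≤ 0.36)))
        ((intOn_exp.const_mul _).add hind) measurableSet_Ioi
      intro x hx
      show (Real.exp (-(x / 2)) ^ 3 - f0 θ x ^ 3) / (x * √x) ≤ 3 * (0.146 * 2.87) * δ * Real.exp (-x) +
          (Ioi (5.29 : ℝ)).indicator (fun x => (16 * δ) ^ 3 * (1 / (x * √x))) x
      by_cases hx2 : x ≤ 5.29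
      · rw [Set.indicator_of_notMem (show x ∉ Ioi (5.29 : ℝ) from fun h => absurd hx2 (not_le.2 h)), add_zero]
        exact hg2 x hx hx2
      · rw [not_le] at hx2
        rw [Set.indicator_of_mem (mem_Ioi.2 hx2)]
        exact hg3 x hx2
    refine h1.trans ?_
    rw [integral_add (intOn_exp.const_mul _) hind, integral_const_mul, int_exp,
      setIntegral_indicator measurableSet_Ioi]
    have h2 : Ioi (0.36 : ℝ) ∩ Ioi 5.29 = Ioi 5.29 := by
      rw [Set.inter_eq_right]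
      exact Ioi_subset_Ioi (by norm_num)
    rw [h2, integral_const_mul, int_pow]
    have h3 : 3 * (0.146 * 2.87) * δ * Real.exp (-0.36) ≤ 3 * (0.146 * 2.87) * δ * 0.7 :=
      mul_le_mul_of_nonneg_left exp_num1 (by positivity)
    linarith
  have hI : ∫ x in Ioi (0 : ℝ), (Real.exp (-(x / 2)) ^ 3 - f0 θ x ^ 3) / (x * √x) ≤ 1.17 * δ := by
    rw [hsplit]
    have h1 : (16 * δ) ^ 3 * (2 / 2.3) ≤ 0.07 * δ := by
      have h2 : δ ^ 2 ≤ (36 / 8192) ^ 2 := pow_le_pow_left₀ hδ0.le hδ1 2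
      have h3 : (16 * δ) ^ 3 * (2 / 2.3) = (4096 * (2 / 2.3) * δ ^ 2) * δ := by ring
      rw [h3]
      apply mul_le_mul_of_nonneg_right _ hδ0.le
      calc 4096 * (2 / 2.3) * δ ^ 2 ≤ 4096 * (2 / 2.3) * (36 / 8192) ^ 2 :=
            mul_le_mul_of_nonneg_left h2 (by norm_num)
        _ ≤ 0.07 := by norm_num
    have h2 : 3 * (12.1 / 24) * δ * 0.144 ≤ 0.218 * δ := by linarith
    have h3 : 3 * (0.146 * 2.87) * δ * 0.7 ≤ 0.88 * δ := by linarith
    linarith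
  have hs3 : 1 / (2 * √((3 : ℕ) : ℝ)) ≤ 0.289 := by
    have h1 : (1.731 : ℝ) ≤ √((3 : ℕ) : ℝ) := by
      apply Real.le_sqrt_of_sq_le
      norm_num
    exact aux3 _ h1
  have hs30 : 0 ≤ 1 / (2 * √((3 : ℕ) : ℝ)) := by positivity
  have hfin : V θ 3 - √(Real.pi / 2) ≤ 0.289 * (1.17 * δ) := by
    rw [heq]
    calc _ ≤ 1 / (2 * √((3 : ℕ) : ℝ)) * (1.17 * δ) := mul_le_mul_of_nonneg_left hI hs30
      _ ≤ 0.289 * (1.17 * δ) := mul_le_mul_of_nonneg_right hs3 (by positivity)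
  linarith

end Pool.Agent.Helper35.TH
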