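import Pool.Agent.Helper63.TH.Goals
import Pool.Agent.Helper35.PT.LN

/-!
# MP_705522_gt, thresholds: packet PSL
-/

set_option autoImplicit false

namespace Pool.Agent.Helper35.TH

open MeasureTheory Set Filter Topology
open Pool.Agent.Helper53.PT
open Pool.Agent.Helper63.P705 (NumOK sg2N)
open Pool.Agent.Helper63.TH

/-- the product of the Gamma values -/
noncomputable def SS (θ : ℝ) : ℝ := Real.Gamma (1 + θ) * Real.Gamma (1 - θ)

theorem vR_nonneg' (v : ℕ) : 0 ≤ vR v := div_nonneg (Nat.cast_nonneg v) (by norm_num)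

theorem pG_sub_pS (a : ℕ) : ((pG a : ℕ) : ℝ) - (pS a : ℕ) = 762123384785 - (v2 a : ℝ) := by
  unfold pG pS
  generalize v2 a = w
  rw [Nat.sub_eq, Nat.sub_eq]
  rcases le_total w 762123384785 with h | h
  · rw [Nat.sub_eq_zero_of_le h, Nat.cast_sub h]
    push_cast
    ring
  · rw [Nat.sub_eq_zero_of_le h, Nat.cast_sub h]
    push_cast
    ring

theorem pD_eq (a : ℕ) : pD a = v1 a - 762123384786 := by
  unfold pD
  generalize v1 a = w
  rw [Nat.sub_eq]

theorem v1_eq (a : ℕ) : v1 a = ((sg2N a - (sg2N (a - 1) + 4)) <<< 52) / (sg2N a + 2) := by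
  unfold v1
  rw [Nat.sub_eq, Nat.sub_eq, Nat.add_eq, Nat.add_eq]
  rfl

theorem v2_eq (a : ℕ) : v2 a = ((sg2N (a + 1) + 4 - sg2N a) <<< 52) / (sg2N a - 2) + 1 := by
  unfold v2
  rw [Nat.sub_eq, Nat.sub_eq, Nat.add_eq]
  rfl

theorem SS_pos {θ : ℝ} (h0 : 0 < θ) (h1 : θ < 1) : 0 < SS θ :=
  mul_pos (Real.Gamma_pos_of_pos (by linarith)) (Real.Gamma_pos_of_pos (by linarith))

theorem SS_ge_one {θ : ℝ} (h0 : 0 < θ) (h1 : θ < 1) : 1 ≤ SS θ := by
  unfold SS
  have e1 : Real.Gamma (1 + θ) = θ * Real.Gamma θ := by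
    rw [add_comm]
    exact Real.Gamma_add_one h0.ne'
  have e2 := Real.Gamma_mul_Gamma_one_sub θ
  rw [e1, mul_assoc, e2]
  have hs : 0 < Real.sin (Real.pi * θ) := by
    apply Real.sin_pos_of_pos_of_lt_pi
    · positivity
    · nlinarith [Real.pi_pos]
  have hs2 : Real.sin (Real.pi * θ) ≤ Real.pi * θ := Real.sin_le (by positivity)
  rw [← mul_div_assoc, le_div_iff₀ hs]
  linarith

theorem LP_eq {θ : ℝ} (h0 : 0 < θ) (h1 : θ < 1) :
    LP θ = Real.log (Real.pi / 2) + (θ - 1 / 2) * Real.log 2 - Real.log (SS θ) / 2 := by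
  unfold LP P sg
  have hS := SS_pos h0 h1
  have h2 : (0 : ℝ) < (2 : ℝ) ^ (θ - 1 / 2) := Real.rpow_pos_of_pos two_pos _
  have h3 : Real.pi / 2 ≠ 0 := by positivity
  have h4 : √(Real.Gamma (1 + θ) * Real.Gamma (1 - θ)) ≠ 0 := (Real.sqrt_pos.2 hS).ne'
  rw [Real.log_div (mul_ne_zero h3 h2.ne') h4, Real.log_mul h3 h2.ne', Real.log_rpow two_pos,
    Real.log_sqrt (show 0 ≤ Real.Gamma (1 + θ) * Real.Gamma (1 - θ) from hS.le)]
  rfl

theorem P_pos {θ : ℝ} (h0 : 0 < θ) (h1 : θ < 1) : 0 < P θ := by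
  unfold P sg
  have hS := SS_pos h0 h1
  have h2 : (0 : ℝ) < (2 : ℝ) ^ (θ - 1 / 2) := Real.rpow_pos_of_pos two_pos _
  have h4 : 0 < √(Real.Gamma (1 + θ) * Real.Gamma (1 - θ)) := Real.sqrt_pos.2 hS
  positivity

/-- concave functions: the slope decreases -/
theorem slope_le {f : ℝ → ℝ} {s : Set ℝ} (hf : ConcaveOn ℝ s f) {x y z w : ℝ} (hx : x ∈ s) (hy : y ∈ s) (hz : z ∈ s)
    (hw : w ∈ s) (hxy : x < y) (hyz : y ≤ z) (hzw : z < w) : (f w - f z) / (w - z) ≤ (f y - f x) / (y - x) := by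
  rcases hyz.eq_or_lt with h | h
  · subst h
    exact hf.slope_anti_adjacent hx hw hxy hzw
  · exact (hf.slope_anti_adjacent hy hw h hzw).trans (hf.slope_anti_adjacent hx hz hxy h)

theorem gPSL : GPSL := by
  intro hN hPC
  obtain ⟨hconc, -, -, -, hbd⟩ := hPC
  obtain ⟨hl1, hl2⟩ := Pool.Agent.Helper35.PT.log2_bd
  have hpow : (2 : ℝ) ^ 40 = 1099511627776 := by norm_num
  have e52 : (2 : ℝ) ^ 52 = 4503599627370496 := by norm_num
  constructor
  · intro a ha1 ha2 θ θ' h1 h2 h3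
    rcases h2.eq_or_lt with h | hlt
    · subst h
      simp
    have haR1 : (2048 : ℝ) ≤ a := by exact_mod_cast ha1
    have haR2 : (a : ℝ) ≤ 4094 := by exact_mod_cast ha2
    have hθ' : θ' ≤ 1 / 2 := by
      have : (a : ℝ) / 8192 ≤ 1 / 2 := by linarith
      linarith
    -- the base interval
    have hx0 : (a : ℝ) / 8192 ∈ Icc (1 / 4 : ℝ) (1 / 2) := ⟨by linarith, by linarith⟩
    have hx1 : ((a : ℝ) + 1) / 8192 ∈ Icc (1 / 4 : ℝ) (1 / 2) := ⟨by linarith, by linarith⟩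
    have hs := slope_le hconc (x := θ) (y := θ') (z := (a : ℝ) / 8192) (w := ((a : ℝ) + 1) / 8192)
      ⟨h1, by linarith⟩ ⟨by linarith, hθ'⟩ hx0 hx1 hlt h3 (by linarith)
    have hs0 := hN.sg2 a ha1 (by omega)
    have hs1 := hN.sg2 (a + 1) (by omega) (by omega)
    have e0 : Real.Gamma (1 + (a : ℝ) / 8192) * Real.Gamma (1 - (a : ℝ) / 8192) = SS ((a : ℝ) / 8192) := rfl
    have e1 : Real.Gamma (1 + ((a + 1 : ℕ) : ℝ) / 8192) * Real.Gamma (1 - ((a + 1 : ℕ) : ℝ) / 8192) =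
        SS (((a : ℝ) + 1) / 8192) := by
      push_cast
      rfl
    rw [e0] at hs0
    rw [e1] at hs1
    have hS0 : 1 ≤ SS ((a : ℝ) / 8192) := SS_ge_one (by linarith) (by linarith)
    have hS1 : 1 ≤ SS (((a : ℝ) + 1) / 8192) := SS_ge_one (by linarith) (by linarith)
    rw [abs_le] at hs0 hs1
    have ht : (2⁻¹ : ℝ) ^ 39 = 2 / 2 ^ 40 := by norm_num
    rw [ht] at hs0 hs1
    -- integer quantities
    obtain ⟨N, hNdef⟩ : ∃ N : ℕ, N = sg2N (a + 1) + 4 - sg2N a := ⟨_, rfl⟩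
    have hNge : (sg2N (a + 1) : ℝ) + 4 - sg2N a ≤ N := by
      have : sg2N (a + 1) + 4 ≤ N + sg2N a := by omega
      have := (Nat.cast_le (α := ℝ)).2 this
      push_cast at this
      linarith
    have hsa : (2 : ℝ) ^ 40 - 2 ≤ sg2N a := by
      have := hs0.1
      have h5 : (sg2N a : ℝ) / 2 ^ 40 ≥ 1 - 2 / 2 ^ 40 := by linarith
      rw [ge_iff_le, ← sub_nonneg] at h5
      have h6 : (sg2N a : ℝ) / 2 ^ 40 - (1 - 2 / 2 ^ 40) = ((sg2N a : ℝ) - (2 ^ 40 - 2)) / 2 ^ 40 := by ring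
      rw [h6] at h5
      have h7 := mul_nonneg h5 (by positivity : (0 : ℝ) ≤ 2 ^ 40)
      rw [div_mul_cancel₀ _ (by positivity)] at h7
      linarith
    have hsaN : 2 ≤ sg2N a := by
      have h5 : (2 : ℝ) ≤ sg2N a := by
        rw [hpow] at hsa
        linarith
      exact_mod_cast h5
    have hden : (0 : ℝ) < (sg2N a : ℝ) - 2 := by
      rw [hpow] at hsa
      linarith
    have hv2 : v2 a = (N <<< 52) / (sg2N a - 2) + 1 := by
      rw [hNdef, v2_eq]
    have hv2R : (N : ℝ) * 2 ^ 52 / ((sg2N a : ℝ) - 2) ≤ v2 a := by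
      rw [hv2, Nat.shiftLeft_eq]
      have h5 := Nat.lt_floor_add_one (((N * 2 ^ 52 : ℕ) : ℝ) / ((sg2N a - 2 : ℕ) : ℝ))
      rw [Nat.floor_div_eq_div] at h5
      rw [Nat.cast_sub hsaN] at h5
      push_cast at h5 ⊢
      rw [e52]
      exact h5.le
    -- the slope on the base interval
    have hlog : Real.log (SS (((a : ℝ) + 1) / 8192)) - Real.log (SS ((a : ℝ) / 8192)) ≤
        (SS (((a : ℝ) + 1) / 8192) - SS ((a : ℝ) / 8192)) / SS ((a : ℝ) / 8192) := by
      rw [← Real.log_div (by linarith) (by linarith)]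
      refine (Real.log_le_sub_one_of_pos (by positivity)).trans (le_of_eq ?_)
      field_simp
    have hquot : (SS (((a : ℝ) + 1) / 8192) - SS ((a : ℝ) / 8192)) / SS ((a : ℝ) / 8192) ≤ N / ((sg2N a : ℝ) - 2) := by
      have h5 : SS (((a : ℝ) + 1) / 8192) - SS ((a : ℝ) / 8192) ≤ N / 2 ^ 40 := by
        have h6 : SS (((a : ℝ) + 1) / 8192) - SS ((a : ℝ) / 8192) ≤
            (sg2N (a + 1) : ℝ) / 2 ^ 40 + 2 / 2 ^ 40 - ((sg2N a : ℝ) / 2 ^ 40 - 2 / 2 ^ 40) := by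
          linarith [hs1.1, hs0.2]
        refine h6.trans ?_
        have h7 : (sg2N (a + 1) : ℝ) / 2 ^ 40 + 2 / 2 ^ 40 - ((sg2N a : ℝ) / 2 ^ 40 - 2 / 2 ^ 40) =
            ((sg2N (a + 1) : ℝ) + 4 - sg2N a) / 2 ^ 40 := by ring
        rw [h7]
        exact div_le_div_of_nonneg_right hNge (by positivity)
      have h6 : ((sg2N a : ℝ) - 2) / 2 ^ 40 ≤ SS ((a : ℝ) / 8192) := by
        have h7 : ((sg2N a : ℝ) - 2) / 2 ^ 40 = (sg2N a : ℝ) / 2 ^ 40 - 2 / 2 ^ 40 := by ring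
        rw [h7]
        linarith [hs0.2]
      calc (SS (((a : ℝ) + 1) / 8192) - SS ((a : ℝ) / 8192)) / SS ((a : ℝ) / 8192)
          ≤ ((N : ℝ) / 2 ^ 40) / SS ((a : ℝ) / 8192) := div_le_div_of_nonneg_right h5 (by linarith)
        _ ≤ ((N : ℝ) / 2 ^ 40) / (((sg2N a : ℝ) - 2) / 2 ^ 40) :=
          div_le_div_of_nonneg_left (by positivity) (by positivity) h6
        _ = N / ((sg2N a : ℝ) - 2) := by field_simp
    have hbase : Real.log 2 - vR (v2 a) ≤
        (LP (((a : ℝ) + 1) / 8192) - LP ((a : ℝ) / 8192)) / (((a : ℝ) + 1) / 8192 - (a : ℝ) / 8192) := by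
      rw [LP_eq (by linarith : (0 : ℝ) < ((a : ℝ) + 1) / 8192) (by linarith),
        LP_eq (by linarith : (0 : ℝ) < (a : ℝ) / 8192) (by linarith)]
      have h5 : ((a : ℝ) + 1) / 8192 - (a : ℝ) / 8192 = 1 / 8192 := by ring
      rw [h5]
      have h6 : (N : ℝ) / ((sg2N a : ℝ) - 2) * 4096 ≤ vR (v2 a) := by
        unfold vR
        rw [le_div_iff₀ (by positivity)]
        refine le_trans (le_of_eq ?_) hv2R
        ring
      have h8 := hlog.trans hquot
      have h9 : (Real.log (Real.pi / 2) + (((a : ℝ) + 1) / 8192 - 1 / 2) * Real.log 2 -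
          Real.log (SS (((a : ℝ) + 1) / 8192)) / 2 - (Real.log (Real.pi / 2) + ((a : ℝ) / 8192 - 1 / 2) * Real.log 2 -
          Real.log (SS ((a : ℝ) / 8192)) / 2)) / (1 / 8192) =
          Real.log 2 - 4096 * (Real.log (SS (((a : ℝ) + 1) / 8192)) - Real.log (SS ((a : ℝ) / 8192))) := by
        ring
      rw [h9]
      linarith
    -- the gain
    have hgs : vR (pG a) - vR (pS a) ≤ Real.log 2 - vR (v2 a) := by
      unfold vR
      have h5 := pG_sub_pS a
      rw [← sub_div, h5, sub_div]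
      have h6 : (762123384785 : ℝ) / 2 ^ 40 ≤ Real.log 2 := by
        rw [div_le_iff₀ (by positivity), hpow]
        linarith
      linarith
    have hLP : (θ' - θ) * (vR (pG a) - vR (pS a)) ≤ LP θ' - LP θ := by
      have h5 := hgs.trans (hbase.trans hs)
      rw [le_div_iff₀ (by linarith)] at h5
      linarith
    have hPθ := hbd θ h1 (by linarith)
    have hPpos : 0 < P θ := by linarith [hPθ.1]
    have hPpos' : 0 < P θ' := P_pos (by linarith) (by linarith)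
    have hexp : P θ * (LP θ' - LP θ) ≤ P θ' - P θ := by
      have h5 := Real.add_one_le_exp (LP θ' - LP θ)
      have h6 : Real.exp (LP θ' - LP θ) = P θ' / P θ := by
        unfold LP
        rw [← Real.log_div hPpos'.ne' hPpos.ne', Real.exp_log (div_pos hPpos' hPpos)]
      rw [h6, le_div_iff₀ hPpos] at h5
      linarith
    have hg0 : 0 ≤ vR (pG a) := vR_nonneg' _
    have hs0' : 0 ≤ vR (pS a) := vR_nonneg' _
    refine le_trans ?_ hexp
    refine le_trans ?_ (mul_le_mul_of_nonneg_left hLP hPpos.le)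
    have h7 : 1.2533 * vR (pG a) - 1.571 * vR (pS a) ≤ P θ * (vR (pG a) - vR (pS a)) := by
      nlinarith [hPθ.1, hPθ.2.2, mul_le_mul_of_nonneg_right hPθ.1 hg0, mul_le_mul_of_nonneg_right hPθ.2.2 hs0']
    have h8 := mul_le_mul_of_nonneg_left h7 (by linarith : (0 : ℝ) ≤ θ' - θ)
    calc _ ≤ _ := h8
      _ = _ := by ring
  · intro a ha1 ha2 θ θ' h1 h2 h3 hpD
    rcases h2.eq_or_lt with h | hlt
    · subst h
      simp
    have haR1 : (2049 : ℝ) ≤ a := by exact_mod_cast ha1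
    have haR2 : (a : ℝ) ≤ 4095 := by exact_mod_cast ha2
    have hθ0 : 1 / 4 ≤ θ := by
      have : (1 : ℝ) / 4 ≤ (a : ℝ) / 8192 := by linarith
      linarith
    have hx0 : ((a : ℝ) - 1) / 8192 ∈ Icc (1 / 4 : ℝ) (1 / 2) := ⟨by linarith, by linarith⟩
    have hx1 : (a : ℝ) / 8192 ∈ Icc (1 / 4 : ℝ) (1 / 2) := ⟨by linarith, by linarith⟩
    have hs := slope_le hconc (x := ((a : ℝ) - 1) / 8192) (y := (a : ℝ) / 8192) (z := θ) (w := θ')
      hx0 hx1 ⟨hθ0, by linarith⟩ ⟨by linarith, h3⟩ (by linarith) h1 hlt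
    have hs1 := hN.sg2 a (by omega) (by omega)
    have hs0 := hN.sg2 (a - 1) (by omega) (by omega)
    have e1 : Real.Gamma (1 + (a : ℝ) / 8192) * Real.Gamma (1 - (a : ℝ) / 8192) = SS ((a : ℝ) / 8192) := rfl
    have hcast : ((a - 1 : ℕ) : ℝ) = (a : ℝ) - 1 := by
      rw [Nat.cast_sub (by omega)]
      push_cast
      rfl
    have e0 : Real.Gamma (1 + ((a - 1 : ℕ) : ℝ) / 8192) * Real.Gamma (1 - ((a - 1 : ℕ) : ℝ) / 8192) =
        SS (((a : ℝ) - 1) / 8192) := by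
      rw [hcast]
      rfl
    rw [e0] at hs0
    rw [e1] at hs1
    have hS0 : 1 ≤ SS (((a : ℝ) - 1) / 8192) := SS_ge_one (by linarith) (by linarith)
    have hS1 : 1 ≤ SS ((a : ℝ) / 8192) := SS_ge_one (by linarith) (by linarith)
    rw [abs_le] at hs0 hs1
    have ht : (2⁻¹ : ℝ) ^ 39 = 2 / 2 ^ 40 := by norm_num
    rw [ht] at hs0 hs1
    -- integers
    have hpD' : 762123384786 < v1 a := by
      rw [pD_eq] at hpD
      exact Nat.lt_of_sub_pos hpD
    have hv1 := v1_eq a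
    have hNpos : sg2N (a - 1) + 4 < sg2N a := by
      by_contra hcon
      rw [not_lt] at hcon
      rw [hv1, Nat.sub_eq_zero_of_le hcon, Nat.zero_shiftLeft, Nat.zero_div] at hpD'
      exact Nat.not_lt_zero _ hpD'
    obtain ⟨N, hNdef⟩ : ∃ N : ℕ, N = sg2N a - (sg2N (a - 1) + 4) := ⟨_, rfl⟩
    have hNR : (N : ℝ) = (sg2N a : ℝ) - (sg2N (a - 1) : ℝ) - 4 := by
      rw [hNdef, Nat.cast_sub hNpos.le]
      push_cast
      ring
    have hden : (0 : ℝ) < (sg2N a : ℝ) + 2 := by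
      have h5 : (0 : ℝ) ≤ (sg2N a : ℝ) := Nat.cast_nonneg _
      linarith
    have hv1R : (v1 a : ℝ) ≤ (N : ℝ) * 2 ^ 52 / ((sg2N a : ℝ) + 2) := by
      rw [hv1, ← hNdef, Nat.shiftLeft_eq]
      have h5 := Nat.floor_le (a := ((N * 2 ^ 52 : ℕ) : ℝ) / ((sg2N a + 2 : ℕ) : ℝ))
        (div_nonneg (Nat.cast_nonneg _) (Nat.cast_nonneg _))
      rw [Nat.floor_div_eq_div] at h5
      push_cast at h5 ⊢
      rw [e52]
      exact h5
    have hlog : (SS ((a : ℝ) / 8192) - SS (((a : ℝ) - 1) / 8192)) / SS ((a : ℝ) / 8192) ≤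
        Real.log (SS ((a : ℝ) / 8192)) - Real.log (SS (((a : ℝ) - 1) / 8192)) := by
      have h5 := Real.log_le_sub_one_of_pos
        (by positivity : 0 < SS (((a : ℝ) - 1) / 8192) / SS ((a : ℝ) / 8192))
      rw [Real.log_div (by linarith) (by linarith)] at h5
      have h6 : (SS ((a : ℝ) / 8192) - SS (((a : ℝ) - 1) / 8192)) / SS ((a : ℝ) / 8192) =
          -(SS (((a : ℝ) - 1) / 8192) / SS ((a : ℝ) / 8192) - 1) := by
        field_simp
        ring
      rw [h6]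
      linarith
    have hquot : N / ((sg2N a : ℝ) + 2) ≤ (SS ((a : ℝ) / 8192) - SS (((a : ℝ) - 1) / 8192)) / SS ((a : ℝ) / 8192) := by
      have h5 : (N : ℝ) / 2 ^ 40 ≤ SS ((a : ℝ) / 8192) - SS (((a : ℝ) - 1) / 8192) := by
        have h7 : (N : ℝ) / 2 ^ 40 = (sg2N a : ℝ) / 2 ^ 40 - 2 / 2 ^ 40 - ((sg2N (a - 1) : ℝ) / 2 ^ 40 + 2 / 2 ^ 40) := by
          rw [hNR]
          ring
        rw [h7]
        linarith [hs1.2, hs0.1]
      have h6 : SS ((a : ℝ) / 8192) ≤ ((sg2N a : ℝ) + 2) / 2 ^ 40 := by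
        have h7 : ((sg2N a : ℝ) + 2) / 2 ^ 40 = (sg2N a : ℝ) / 2 ^ 40 + 2 / 2 ^ 40 := by ring
        rw [h7]
        linarith [hs1.1]
      calc (N : ℝ) / ((sg2N a : ℝ) + 2) = ((N : ℝ) / 2 ^ 40) / (((sg2N a : ℝ) + 2) / 2 ^ 40) := by field_simp
        _ ≤ ((N : ℝ) / 2 ^ 40) / SS ((a : ℝ) / 8192) :=
          div_le_div_of_nonneg_left (div_nonneg (Nat.cast_nonneg N) (by norm_num)) (by linarith) h6
        _ ≤ _ := div_le_div_of_nonneg_right h5 (by linarith)
    have hbase : (LP ((a : ℝ) / 8192) - LP (((a : ℝ) - 1) / 8192)) / ((a : ℝ) / 8192 - ((a : ℝ) - 1) / 8192) ≤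
        Real.log 2 - vR (v1 a) := by
      rw [LP_eq (by linarith : (0 : ℝ) < ((a : ℝ) - 1) / 8192) (by linarith),
        LP_eq (by linarith : (0 : ℝ) < (a : ℝ) / 8192) (by linarith)]
      have h5 : (a : ℝ) / 8192 - ((a : ℝ) - 1) / 8192 = 1 / 8192 := by ring
      rw [h5]
      have h6 : vR (v1 a) ≤ (N : ℝ) / ((sg2N a : ℝ) + 2) * 4096 := by
        unfold vR
        rw [div_le_iff₀ (by positivity)]
        refine le_trans hv1R (le_of_eq ?_)
        ring
      have h8 := hquot.trans hlog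
      have h9 : (Real.log (Real.pi / 2) + ((a : ℝ) / 8192 - 1 / 2) * Real.log 2 -
          Real.log (SS ((a : ℝ) / 8192)) / 2 - (Real.log (Real.pi / 2) + (((a : ℝ) - 1) / 8192 - 1 / 2) * Real.log 2 -
          Real.log (SS (((a : ℝ) - 1) / 8192)) / 2)) / (1 / 8192) =
          Real.log 2 - 4096 * (Real.log (SS ((a : ℝ) / 8192)) - Real.log (SS (((a : ℝ) - 1) / 8192))) := by
        ring
      rw [h9]
      linarith
    have hgs : Real.log 2 - vR (v1 a) ≤ -vR (pD a) := by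
      unfold vR
      have h5 : ((pD a : ℕ) : ℝ) = (v1 a : ℝ) - 762123384786 := by
        rw [pD_eq, Nat.cast_sub hpD'.le]
        push_cast
        ring
      rw [h5, sub_div]
      have h6 : Real.log 2 ≤ (762123384786 : ℝ) / 2 ^ 40 := by
        rw [le_div_iff₀ (by positivity), hpow]
        linarith
      linarith
    have hLP : LP θ' - LP θ ≤ -((θ' - θ) * vR (pD a)) := by
      have h5 := hs.trans (hbase.trans hgs)
      rw [div_le_iff₀ (by linarith)] at h5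
      linarith
    have hPθ' := hbd θ' (by linarith) h3
    have hPpos' : 0 < P θ' := by linarith [hPθ'.1]
    have hPpos : 0 < P θ := P_pos (by linarith) (by linarith)
    have hexp : P θ' - P θ ≤ P θ' * (LP θ' - LP θ) := by
      have h5 := Real.add_one_le_exp (LP θ - LP θ')
      have h6 : Real.exp (LP θ - LP θ') = P θ / P θ' := by
        unfold LP
        rw [← Real.log_div hPpos.ne' hPpos'.ne', Real.exp_log (div_pos hPpos hPpos')]
      rw [h6, le_div_iff₀ hPpos'] at h5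
      linarith
    refine hexp.trans ?_
    have hd0 : 0 ≤ (θ' - θ) * vR (pD a) := mul_nonneg (by linarith) (vR_nonneg' _)
    have h7 := mul_le_mul_of_nonneg_left hLP hPpos'.le
    have h8 := mul_le_mul_of_nonneg_right hPθ'.1 hd0
    linarith

end Pool.Agent.Helper35.TH
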